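import Pool.Agent.Q318.FT.Def

/-! # Values of a coordinate at the points of local constancy (helper318) -/

set_option autoImplicit false

namespace Pool.Agent.Q318.FT

open Function
open Pool.Agent.Y924.EL
open Pool.Agent.Y924.UF
open Pool.Agent.Y410.UF
open WithZero LaurentSeries

/-- a set of values with witnesses in the box `b⁻¹ O ^ (m + 1)`, such that witnesses in the same
coset of `b O ^ (m + 1)` belong to the same value, is finite -/
theorem fin_of_wit {p : ℕ} [Fact p.Prime] (m : ℕ) (b : LaurentSeries (ZMod p)) (hb : b ≠ 0)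
    (S : Set (LaurentSeries (ZMod p)))
    (W : LaurentSeries (ZMod p) → ℕ → LaurentSeries (ZMod p))
    (h1 : ∀ x ∈ S, ∀ k, k ≤ m → w (W x k) ≤ w b⁻¹)
    (h2 : ∀ x ∈ S, ∀ y ∈ S, (∀ k, k ≤ m → w (W y k - W x k) ≤ w b) → y = x) : S.Finite := by
  have hwb : w b ≠ 0 := (Valuation.ne_zero_iff _).2 hb
  have hwc : w b⁻¹ ≠ 0 := (Valuation.ne_zero_iff _).2 (inv_ne_zero hb)
  set f : LaurentSeries (ZMod p) →
      (Fin (m + 1) → Finset.Ico (-log (w b⁻¹)) (-log (w b)) → ZMod p) :=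
    fun x k n => (W x k).coeff n with hf
  refine Set.Finite.of_finite_image (f := f) (Set.toFinite _) ?_
  intro x hx y hy hxy
  refine (h2 x hx y hy fun k hk => ?_).symm
  rw [w, LaurentSeries.valuation_le_iff_coeff_lt_log_eq_zero _ hwb]
  intro n hn
  rw [HahnSeries.coeff_sub]
  by_cases hn2 : n < -log (w b⁻¹)
  · rw [(LaurentSeries.valuation_le_iff_coeff_lt_log_eq_zero _ hwc).1 (h1 x hx k hk) n hn2,
      (LaurentSeries.valuation_le_iff_coeff_lt_log_eq_zero _ hwc).1 (h1 y hy k hk) n hn2, sub_zero]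
  · have h3 : f x ⟨k, by omega⟩ ⟨n, Finset.mem_Ico.2 ⟨not_lt.1 hn2, hn⟩⟩ =
        f y ⟨k, by omega⟩ ⟨n, Finset.mem_Ico.2 ⟨not_lt.1 hn2, hn⟩⟩ := by rw [hxy]
    have h4 : (W x k).coeff n = (W y k).coeff n := h3
    rw [h4, sub_self]

theorem core (hVAL : S_VAL) (p : ℕ) [Fact p.Prime] (P : Set (LaurentSeries (ZMod p)))
    (huni : ∀ φ : Fm, ∃ N : ℕ, ∀ v, (DefP P φ v).Finite → (DefP P φ v).ncard ≤ N)
    (φ : Fm) (m : ℕ) : ∃ N : ℕ, ∀ (v : ℕ → LaurentSeries (ZMod p))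
      (F : Finset (LaurentSeries (ZMod p))),
      (∀ x ∈ F, ∃ W : ℕ → LaurentSeries (ZMod p), (∀ k, m < k → W k = v k) ∧ Sat P φ W ∧
        W 0 = x ∧ ∃ b : LaurentSeries (ZMod p), b ≠ 0 ∧ ∀ W' : ℕ → LaurentSeries (ZMod p),
          (∀ k, m < k → W' k = v k) → Sat P φ W' → (∀ k, k ≤ m → w (W' k - W k) ≤ w b) →
            W' 0 = W 0) → F.card ≤ N := by
  classical
  have hval := (hVAL p).1
  obtain ⟨ψ, hψ⟩ := isDef_SS m (p + 1) (O := P) (D := {w | Sat P φ w}) ⟨φ, fun _ => Iff.rfl⟩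
  obtain ⟨N, hN⟩ := huni ψ
  refine ⟨N, fun v F hF => ?_⟩
  choose! W hW hWs hW0 β hβ0 hβ using hF
  set ι : LaurentSeries (ZMod p) → LaurentSeries (ZMod p) := fun y => if y = 0 then 1 else y⁻¹
    with hι
  have hι0 : ∀ y, ι y ≠ 0 := by
    intro y
    simp only [hι]
    split_ifs with h
    · exact one_ne_zero
    · exact inv_ne_zero h
  have hιw : ∀ y, w y ≤ w (ι y)⁻¹ := by
    intro y
    simp only [hι]
    split_ifs with h
    · rw [h]
      simp [w]
    · rw [inv_inv]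
  obtain ⟨b, hbF, hb⟩ := Finset.exists_min_image
    (insert 1 (F.image β ∪ (F ×ˢ Finset.range (m + 1)).image fun z => ι (W z.1 z.2))) w
    ⟨1, by simp⟩
  have hb0 : b ≠ 0 := by
    rcases Finset.mem_insert.1 hbF with h | h
    · rw [h]; exact one_ne_zero
    · rcases Finset.mem_union.1 h with h | h
      · obtain ⟨x, hx, rfl⟩ := Finset.mem_image.1 h
        exact hβ0 x hx
      · obtain ⟨z, hz, rfl⟩ := Finset.mem_image.1 h
        exact hι0 _
  have hbβ : ∀ x ∈ F, w b ≤ w (β x) := fun x hx =>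
    hb _ (Finset.mem_insert_of_mem (Finset.mem_union_left _ (Finset.mem_image_of_mem β hx)))
  have hbW : ∀ x ∈ F, ∀ k, k ≤ m → w (W x k) ≤ w b⁻¹ := by
    intro x hx k hk
    have h1 : w b ≤ w (ι (W x k)) :=
      hb _ (Finset.mem_insert_of_mem (Finset.mem_union_right _ (Finset.mem_image.2
        ⟨(x, k), Finset.mem_product.2 ⟨hx, Finset.mem_range.2 (by omega)⟩, rfl⟩)))
    refine (hιw (W x k)).trans ?_
    unfold w at *
    rw [map_inv₀, map_inv₀]
    exact (inv_le_inv₀ (zero_lt_iff.2 ((Valuation.ne_zero_iff _).2 (hι0 _)))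
      (zero_lt_iff.2 ((Valuation.ne_zero_iff _).2 hb0))).2 h1
  have hbz : ∀ y : LaurentSeries (ZMod p), b * y ∈ OO p ↔ w y ≤ w b⁻¹ := by
    intro y
    rw [mem_OO]
    unfold w
    rw [map_mul, map_inv₀]
    have h0 : (0 : WithZero (Multiplicative ℤ)) < Valued.v b :=
      zero_lt_iff.2 ((Valuation.ne_zero_iff _).2 hb0)
    rw [← mul_inv_cancel₀ h0.ne']
    exact mul_le_mul_iff_right₀ h0
  have hbx : ∀ x y : LaurentSeries (ZMod p), (∃ z, z ∈ OO p ∧ b * z + x = y) ↔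
      w (y - x) ≤ w b := by
    intro x y
    rw [← mem_mul_OO hb0]
    constructor
    · rintro ⟨z, hz, h⟩
      exact ⟨z, hz, by rw [← h]; ring⟩
    · rintro ⟨z, hz, h⟩
      exact ⟨z, hz, by rw [h]; ring⟩
  set A' := DefP P ψ (par' m b (HahnSeries.single (1 : ℤ) (1 : ZMod p)) v) with hA'
  have hmem : ∀ x, x ∈ A' ↔ ∃ U : ℕ → LaurentSeries (ZMod p), (∀ k, m < k → U k = v k) ∧
      Sat P φ U ∧ U 0 = x ∧ (∀ k, k ≤ m → w (U k) ≤ w b⁻¹) ∧
        ∀ U' : ℕ → LaurentSeries (ZMod p), (∀ k, m < k → U' k = v k) → Sat P φ U' →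
          (∀ k, k ≤ m → w (U' k - U k) ≤ w b) → U' 0 = U 0 := by
    intro x
    have h1 : x ∈ A' ↔ update (par' m b (HahnSeries.single (1 : ℤ) (1 : ZMod p)) v) 0 x ∈
        SS m (p + 1) {w | Sat P φ w} := hψ _
    rw [h1, mem_SS]
    simp only [← hval, hbz, hbx]
    rfl
  have hfin : A'.Finite := by
    have h3 : ∀ x, x ∈ A' → _ := fun x hx => (hmem x).1 hx
    choose! U hU hUs hU0 hUb hUu using h3
    refine fin_of_wit m b hb0 A' U hUb fun x hx y hy hxy => ?_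
    rw [← hU0 x hx, ← hU0 y hy]
    exact hUu x hx (U y) (hU y hy) (hUs y hy) hxy
  have hsub : (F : Set (LaurentSeries (ZMod p))) ⊆ A' := by
    intro x hx
    have hx' : x ∈ F := hx
    rw [hmem]
    exact ⟨W x, hW x hx', hWs x hx', hW0 x hx', hbW x hx', fun U' h1 h2 h3 =>
      hβ x hx' U' h1 h2 fun k hk => (h3 k hk).trans (hbβ x hx')⟩
  have h1 : A'.ncard ≤ N := hN _ hfin
  have h2 : F.card ≤ A'.ncard := by
    rw [← Set.ncard_coe_finset]
    exact Set.ncard_le_ncard hsub hfin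
  omega

/-- the same for all coordinates -/
theorem core_all (hVAL : S_VAL) (p : ℕ) [Fact p.Prime] (P : Set (LaurentSeries (ZMod p)))
    (huni : ∀ φ : Fm, ∃ N : ℕ, ∀ v, (DefP P φ v).Finite → (DefP P φ v).ncard ≤ N)
    (φ : Fm) (m : ℕ) : ∃ N : ℕ, ∀ (v : ℕ → LaurentSeries (ZMod p)) (i : ℕ), i ≤ m →
      ∀ (F : Finset (LaurentSeries (ZMod p))),
      (∀ x ∈ F, ∃ W : ℕ → LaurentSeries (ZMod p), (∀ k, m < k → W k = v k) ∧ Sat P φ W ∧
        W i = x ∧ ∃ b : LaurentSeries (ZMod p), b ≠ 0 ∧ ∀ W' : ℕ → LaurentSeries (ZMod p),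
          (∀ k, m < k → W' k = v k) → Sat P φ W' → (∀ k, k ≤ m → w (W' k - W k) ≤ w b) →
            W' i = W i) → F.card ≤ N := by
  classical
  -- the renamed formulas
  choose M hM using fun i : ℕ => core hVAL p P huni (ren (Equiv.swap 0 i) φ) m
  refine ⟨∑ i ∈ Finset.range (m + 1), M i, fun v i hi F hF => ?_⟩
  refine le_trans (hM i v F fun x hx => ?_) (Finset.single_le_sum (f := M)
    (fun _ _ => Nat.zero_le _) (Finset.mem_range.2 (by omega)))
  have hren : ∀ U : ℕ → LaurentSeries (ZMod p), Sat P (ren (Equiv.swap 0 i) φ) U ↔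
      Sat P φ (U ∘ Equiv.swap 0 i) := fun U => sat_ren P (Equiv.swap 0 i).injective φ U
  have hsw : ∀ k, m < k → Equiv.swap 0 i k = k := fun k hk =>
    Equiv.swap_apply_of_ne_of_ne (by omega) (by omega)
  have hsw' : ∀ k, k ≤ m → Equiv.swap 0 i k ≤ m := by
    intro k hk
    rw [Equiv.swap_apply_def]
    split_ifs <;> omega
  obtain ⟨W, hW, hWs, hWi, b, hb0, hb⟩ := hF x hx
  have hinv : ∀ U : ℕ → LaurentSeries (ZMod p), (U ∘ Equiv.swap 0 i) ∘ Equiv.swap 0 i = U := by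
    intro U
    funext k
    simp
  refine ⟨W ∘ Equiv.swap 0 i, fun k hk => ?_, ?_, ?_, b, hb0, fun U' hU' hUs' hn => ?_⟩
  · show W (Equiv.swap 0 i k) = v k
    rw [hsw k hk, hW k hk]
  · rw [hren, hinv]
    exact hWs
  · show W (Equiv.swap 0 i 0) = x
    rw [Equiv.swap_apply_left, hWi]
  · have h1 := hb (U' ∘ Equiv.swap 0 i) (fun k hk => by
      show U' (Equiv.swap 0 i k) = v k
      rw [hsw k hk, hU' k hk]) ((hren U').1 hUs') (fun k hk => by
        have h2 := hn (Equiv.swap 0 i k) (hsw' k hk)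
        have h3 : (W ∘ Equiv.swap 0 i) (Equiv.swap 0 i k) = W k := by simp
        rw [h3] at h2
        exact h2)
    show U' 0 = W (Equiv.swap 0 i 0)
    rw [Equiv.swap_apply_left, ← h1]
    show U' 0 = U' (Equiv.swap 0 i i)
    rw [Equiv.swap_apply_right]

end Pool.Agent.Q318.FT
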