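import Pool.Agent.Y410.UF.Disc2

/-! # Definable sets of assignments: closure properties (helper318)

`IsDef O D`: the set `D` of assignments `ℕ → K` is defined by a formula. -/

set_option autoImplicit false

namespace Pool.Agent.Q318.FT

open Function
open Pool.Agent.Y924.EL
open Pool.Agent.Y924.UF
open Pool.Agent.Y410.UF

section

variable {K : Type} [CommRing K]

/-- the set of assignments is defined by a formula -/
def IsDef (O : Set K) (D : Set (ℕ → K)) : Prop := ∃ φ : Fm, ∀ w, Sat O φ w ↔ w ∈ D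

variable {O : Set K} {D E : Set (ℕ → K)}

theorem IsDef.inter (hD : IsDef O D) (hE : IsDef O E) : IsDef O {w | w ∈ D ∧ w ∈ E} := by
  obtain ⟨φ, hφ⟩ := hD
  obtain ⟨ψ, hψ⟩ := hE
  refine ⟨.and φ ψ, fun w => ?_⟩
  show Sat O φ w ∧ Sat O ψ w ↔ _
  rw [hφ, hψ]
  rfl

theorem IsDef.compl (hD : IsDef O D) : IsDef O {w | w ∉ D} := by
  obtain ⟨φ, hφ⟩ := hD
  refine ⟨.neg φ, fun w => ?_⟩
  show ¬ Sat O φ w ↔ _
  rw [hφ]
  rfl

theorem IsDef.ex (k : ℕ) (hD : IsDef O D) : IsDef O {w | ∃ a, update w k a ∈ D} := by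
  obtain ⟨φ, hφ⟩ := hD
  refine ⟨.ex k φ, fun w => ?_⟩
  show (∃ a, Sat O φ (update w k a)) ↔ _
  simp only [hφ]
  rfl

theorem IsDef.ren {σ : ℕ → ℕ} (hσ : Injective σ) (hD : IsDef O D) :
    IsDef O {w | w ∘ σ ∈ D} := by
  obtain ⟨φ, hφ⟩ := hD
  refine ⟨Pool.Agent.Y924.UF.ren σ φ, fun w => ?_⟩
  rw [sat_ren O hσ, hφ]
  rfl

theorem isDef_eq (i j : ℕ) : IsDef O {w : ℕ → K | w i = w j} := ⟨.eq i j, fun _ => Iff.rfl⟩

theorem isDef_add (i j k : ℕ) : IsDef O {w : ℕ → K | w i + w j = w k} :=
  ⟨.add i j k, fun _ => Iff.rfl⟩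

theorem isDef_mul (i j k : ℕ) : IsDef O {w : ℕ → K | w i * w j = w k} :=
  ⟨.mul i j k, fun _ => Iff.rfl⟩

theorem isDef_OT (q : ℕ) {i j : ℕ} (hij : i ≠ j) : IsDef O {w : ℕ → K | OT q (w i) (w j)} := by
  have h0 : IsDef O {w : ℕ → K | OT q (w 9) (w 5)} := ⟨OTg q, fun w => sat_OTg O q w⟩
  set e1 : Equiv.Perm ℕ := Equiv.swap 9 i with he1
  set e2 : Equiv.Perm ℕ := Equiv.swap (e1 5) j with he2
  have h9 : e1 9 = i := Equiv.swap_apply_left 9 i
  have h5 : e1 5 ≠ i := by
    intro h
    rw [← h9] at h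
    exact absurd (e1.injective h) (by norm_num)
  have h1 : (e2 * e1) 9 = i := by
    show e2 (e1 9) = i
    rw [h9]
    exact Equiv.swap_apply_of_ne_of_ne (fun h => h5 h.symm) hij
  have h2 : (e2 * e1) 5 = j := by
    show e2 (e1 5) = j
    exact Equiv.swap_apply_left _ _
  have h3 := h0.ren (σ := (e2 * e1 : Equiv.Perm ℕ)) (e2 * e1 : Equiv.Perm ℕ).injective
  have h4 : {w : ℕ → K | w ∘ (e2 * e1 : Equiv.Perm ℕ) ∈ {w : ℕ → K | OT q (w 9) (w 5)}} =
      {w : ℕ → K | OT q (w i) (w j)} := by
    ext w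
    show OT q (w ((e2 * e1 : Equiv.Perm ℕ) 9)) (w ((e2 * e1 : Equiv.Perm ℕ) 5)) ↔ _
    rw [h1, h2]
    rfl
  rw [h4] at h3
  exact h3

/-- a block of existential quantifiers -/
theorem IsDef.exB (B : Finset ℕ) : ∀ {D : Set (ℕ → K)}, IsDef O D →
    IsDef O {w | ∃ w' : ℕ → K, (∀ i, i ∉ B → w' i = w i) ∧ w' ∈ D} := by
  classical
  induction B using Finset.induction_on with
  | empty =>
    intro D hD
    have : {w : ℕ → K | ∃ w' : ℕ → K, (∀ i, i ∉ (∅ : Finset ℕ) → w' i = w i) ∧ w' ∈ D} = D := by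
      ext w
      constructor
      · rintro ⟨w', h1, h2⟩
        have : w' = w := funext fun i => h1 i (by simp)
        rwa [← this]
      · intro h
        exact ⟨w, fun _ _ => rfl, h⟩
    rw [this]
    exact hD
  | insert k B hk ih =>
    intro D hD
    have h1 := (ih hD).ex k
    have : {w : ℕ → K | ∃ w' : ℕ → K, (∀ i, i ∉ insert k B → w' i = w i) ∧ w' ∈ D} =
        {w : ℕ → K | ∃ a, update w k a ∈
          {w : ℕ → K | ∃ w' : ℕ → K, (∀ i, i ∉ B → w' i = w i) ∧ w' ∈ D}} := by
      ext w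
      constructor
      · rintro ⟨w', h1, h2⟩
        refine ⟨w' k, w', fun i hi => ?_, h2⟩
        by_cases hik : i = k
        · subst hik
          simp
        · rw [update_of_ne hik]
          exact h1 i (by simp [hik, hi])
      · rintro ⟨a, w', h1, h2⟩
        refine ⟨w', fun i hi => ?_, h2⟩
        rw [Finset.mem_insert, not_or] at hi
        rw [h1 i hi.2, update_of_ne hi.1]
    rw [this]
    exact h1

/-- a finite conjunction -/
theorem isDef_all (B : Finset ℕ) (A : ℕ → Set (ℕ → K)) (h : ∀ k ∈ B, IsDef O (A k)) :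
    IsDef O {w | ∀ k ∈ B, w ∈ A k} := by
  classical
  induction B using Finset.induction_on with
  | empty =>
    refine ⟨.eq 0 0, fun w => ?_⟩
    simp [Sat]
  | insert k B hk ih =>
    have h1 := (h k (by simp)).inter (ih fun j hj => h j (by simp [hj]))
    have : {w : ℕ → K | ∀ j ∈ insert k B, w ∈ A j} =
        {w | w ∈ A k ∧ w ∈ {w | ∀ j ∈ B, w ∈ A j}} := by
      ext w
      simp
    rw [this]
    exact h1

/-- `b x_k` is in the valuation ring -/
theorem isDef_A (q bi τi s k : ℕ) (h1 : τi ≠ s) (h2 : bi ≠ s) (h3 : k ≠ s) :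
    IsDef O {w : ℕ → K | OT q (w τi) (w bi * w k)} := by
  have h := ((isDef_OT (O := O) q h1).inter (isDef_mul (O := O) bi k s)).ex s
  have h4 : {w : ℕ → K | ∃ a, update w s a ∈
      {w | w ∈ {w : ℕ → K | OT q (w τi) (w s)} ∧ w ∈ {w : ℕ → K | w bi * w k = w s}}} =
      {w : ℕ → K | OT q (w τi) (w bi * w k)} := by
    ext w
    constructor
    · rintro ⟨a, ha, hb⟩
      have ha' : OT q (update w s a τi) (update w s a s) := ha
      have hb' : update w s a bi * update w s a k = update w s a s := hb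
      rw [update_self, update_of_ne h1] at ha'
      rw [update_self, update_of_ne h2, update_of_ne h3] at hb'
      rw [← hb'] at ha'
      exact ha'
    · intro ha
      refine ⟨w bi * w k, ?_, ?_⟩
      · show OT q (update w s _ τi) (update w s _ s)
        rw [update_self, update_of_ne h1]
        exact ha
      · show update w s _ bi * update w s _ k = update w s _ s
        rw [update_self, update_of_ne h2, update_of_ne h3]
  rw [h4] at h
  exact h

/-- `x_l` is in the coset `x_k + b O` -/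
theorem isDef_B (q bi τi s s' k l : ℕ) (h1 : τi ≠ s) (h2 : bi ≠ s) (h3 : k ≠ s) (h4 : l ≠ s)
    (h1' : τi ≠ s') (h2' : bi ≠ s') (h3' : k ≠ s') (h4' : l ≠ s') (hs : s ≠ s') :
    IsDef O {w : ℕ → K | ∃ z, OT q (w τi) z ∧ w bi * z + w k = w l} := by
  have h := (((isDef_OT (O := O) q h1).inter ((isDef_mul (O := O) bi s s').inter
    (isDef_add (O := O) s' k l))).ex s').ex s
  have h5 : {w : ℕ → K | ∃ a, update w s a ∈ {w : ℕ → K | ∃ a, update w s' a ∈
      {w | w ∈ {w : ℕ → K | OT q (w τi) (w s)} ∧ w ∈ {w | w ∈ {w : ℕ → K | w bi * w s = w s'} ∧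
        w ∈ {w : ℕ → K | w s' + w k = w l}}}}} =
      {w : ℕ → K | ∃ z, OT q (w τi) z ∧ w bi * z + w k = w l} := by
    ext w
    constructor
    · rintro ⟨a, b, ha, hb, hc⟩
      have ha' : OT q (update (update w s a) s' b τi) (update (update w s a) s' b s) := ha
      have hb' : update (update w s a) s' b bi * update (update w s a) s' b s =
        update (update w s a) s' b s' := hb
      have hc' : update (update w s a) s' b s' + update (update w s a) s' b k =
        update (update w s a) s' b l := hc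
      rw [update_of_ne h1', update_of_ne h1, update_of_ne hs, update_self] at ha'
      rw [update_of_ne h2', update_of_ne h2, update_of_ne hs, update_self, update_self] at hb'
      rw [update_self, update_of_ne h3', update_of_ne h3, update_of_ne h4',
        update_of_ne h4] at hc'
      exact ⟨a, ha', by rw [hb']; exact hc'⟩
    · rintro ⟨z, ha, hb⟩
      refine ⟨z, w bi * z, ?_, ?_, ?_⟩
      · show OT q (update (update w s z) s' (w bi * z) τi) (update (update w s z) s' (w bi * z) s)
        rw [update_of_ne h1', update_of_ne h1, update_of_ne hs, update_self]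
        exact ha
      · show update (update w s z) s' (w bi * z) bi * update (update w s z) s' (w bi * z) s =
          update (update w s z) s' (w bi * z) s'
        rw [update_of_ne h2', update_of_ne h2, update_of_ne hs, update_self, update_self]
      · show update (update w s z) s' (w bi * z) s' + update (update w s z) s' (w bi * z) k =
          update (update w s z) s' (w bi * z) l
        rw [update_self, update_of_ne h3', update_of_ne h3, update_of_ne h4', update_of_ne h4]
        exact hb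
  rw [h5] at h
  exact h

/-! ### the family of finite sets -/

/-- the renaming for the points -/
def sa (m i : ℕ) : ℕ := if i ≤ m then i else i + (m + 6)

/-- the renaming for the other points -/
def sb (m i : ℕ) : ℕ := if i ≤ m then m + 5 + i else i + (m + 6)

theorem sa_inj (m : ℕ) : Injective (sa m) := by
  intro i j h
  unfold sa at h
  split_ifs at h <;> omega

theorem sb_inj (m : ℕ) : Injective (sb m) := by
  intro i j h
  unfold sb at h
  split_ifs at h <;> omega

/-- the parameters -/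
def par' (m : ℕ) (b τ : K) (v : ℕ → K) (n : ℕ) : K :=
  if n = m + 1 then b else if n = m + 2 then τ else v (n - (m + 6))

/-- the points `w` of the box of size `b` such that no point in `w + b O ^ (m + 1)` has another
value of `x_0` -/
def TT (m q : ℕ) (D : Set (ℕ → K)) : Set (ℕ → K) :=
  {w | w ∈ {w : ℕ → K | w ∘ sa m ∈ D} ∧ w ∈ {w : ℕ → K |
    w ∈ {w | ∀ k ∈ Finset.range (m + 1), w ∈ {w : ℕ → K | OT q (w (m + 2)) (w (m + 1) * w k)}} ∧
    w ∈ {w : ℕ → K | w ∉ {w : ℕ → K | ∃ w' : ℕ → K,
      (∀ i, i ∉ Finset.Icc (m + 5) (2 * m + 5) → w' i = w i) ∧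
      w' ∈ {w : ℕ → K | w ∈ {w : ℕ → K | w ∘ sb m ∈ D} ∧ w ∈ {w : ℕ → K |
        w ∈ {w : ℕ → K | ∀ k ∈ Finset.range (m + 1), w ∈ {w : ℕ → K |
          ∃ z, OT q (w (m + 2)) z ∧ w (m + 1) * z + w k = w (m + 5 + k)}} ∧
        w ∈ {w : ℕ → K | w ∉ {w : ℕ → K | w (m + 5) = w 0}}}}}}}}

theorem isDef_TT (m q : ℕ) (hD : IsDef O D) : IsDef O (TT m q D) := by
  refine IsDef.inter (hD.ren (sa_inj m)) (IsDef.inter (isDef_all _ _ fun k hk => ?_)
    (IsDef.compl (IsDef.exB _ (IsDef.inter (hD.ren (sb_inj m)) (IsDef.inter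
      (isDef_all _ _ fun k hk => ?_) (IsDef.compl (isDef_eq _ _)))))))
  · have := Finset.mem_range.1 hk
    exact isDef_A q (m + 1) (m + 2) (m + 3) k (by omega) (by omega) (by omega)
  · have := Finset.mem_range.1 hk
    exact isDef_B q (m + 1) (m + 2) (m + 3) (m + 4) k (m + 5 + k) (by omega) (by omega)
      (by omega) (by omega) (by omega) (by omega) (by omega) (by omega) (by omega)

/-- the values of `x_0` on it -/
def SS (m q : ℕ) (D : Set (ℕ → K)) : Set (ℕ → K) :=
  {w | ∃ w' : ℕ → K, (∀ i, i ∉ Finset.Icc 1 m → w' i = w i) ∧ w' ∈ TT m q D}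

theorem isDef_SS (m q : ℕ) (hD : IsDef O D) : IsDef O (SS m q D) :=
  (isDef_TT m q hD).exB _

theorem mem_TT (m q : ℕ) (D : Set (ℕ → K)) (w : ℕ → K) : w ∈ TT m q D ↔
    w ∘ sa m ∈ D ∧ (∀ k, k ≤ m → OT q (w (m + 2)) (w (m + 1) * w k)) ∧
      ∀ w' : ℕ → K, (∀ i, i ∉ Finset.Icc (m + 5) (2 * m + 5) → w' i = w i) →
        w' ∘ sb m ∈ D → (∀ k, k ≤ m → ∃ z, OT q (w' (m + 2)) z ∧
          w' (m + 1) * z + w' k = w' (m + 5 + k)) → w' (m + 5) = w' 0 := by
  unfold TT
  simp only [Set.mem_setOf_eq, Finset.mem_range, Nat.lt_succ_iff]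
  constructor
  · rintro ⟨h1, h2, h3⟩
    refine ⟨h1, h2, fun w' h4 h5 h6 => ?_⟩
    by_contra h7
    exact h3 ⟨w', h4, h5, h6, h7⟩
  · rintro ⟨h1, h2, h3⟩
    refine ⟨h1, h2, ?_⟩
    rintro ⟨w', h4, h5, h6, h7⟩
    exact h7 (h3 w' h4 h5 h6)

theorem mem_SS (m q : ℕ) (D : Set (ℕ → K)) (v : ℕ → K) (b τ x : K) :
    update (par' m b τ v) 0 x ∈ SS m q D ↔
      ∃ W : ℕ → K, (∀ k, m < k → W k = v k) ∧ W ∈ D ∧ W 0 = x ∧ (∀ k, k ≤ m → OT q τ (b * W k)) ∧
        ∀ W' : ℕ → K, (∀ k, m < k → W' k = v k) → W' ∈ D →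
          (∀ k, k ≤ m → ∃ z, OT q τ z ∧ b * z + W k = W' k) → W' 0 = W 0 := by
  constructor
  · rintro ⟨w, hw, hT⟩
    rw [mem_TT] at hT
    obtain ⟨h1, h2, h3⟩ := hT
    have hb : w (m + 1) = b := by
      rw [hw _ (by simp), update_of_ne (by omega)]
      simp [par']
    have hτ : w (m + 2) = τ := by
      rw [hw _ (by simp), update_of_ne (by omega)]
      simp [par']
    have hv : ∀ k, m < k → w (k + (m + 6)) = v k := by
      intro k hk
      rw [hw _ (by rw [Finset.mem_Icc]; omega), update_of_ne (by omega)]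
      have e1 : k + (m + 6) ≠ m + 1 := by omega
      have e2 : k + (m + 6) ≠ m + 2 := by omega
      rw [par', if_neg e1, if_neg e2, Nat.add_sub_cancel]
    refine ⟨w ∘ sa m, fun k hk => ?_, h1, ?_, fun k hk => ?_, fun W' hW' hD' hn => ?_⟩
    · show w (sa m k) = v k
      rw [sa, if_neg (by omega), hv k hk]
    · show w (sa m 0) = x
      rw [sa, if_pos (Nat.zero_le _), hw 0 (by simp), update_self]
    · show OT q τ (b * w (sa m k))
      rw [sa, if_pos hk]
      have := h2 k hk
      rwa [hb, hτ] at this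
    · set w' : ℕ → K := fun n => if m + 5 ≤ n ∧ n ≤ 2 * m + 5 then W' (n - (m + 5)) else w n
        with hw'
      have e1 : ∀ i, i ∉ Finset.Icc (m + 5) (2 * m + 5) → w' i = w i := by
        intro i hi
        rw [Finset.mem_Icc] at hi
        simp only [hw']
        rw [if_neg hi]
      have e2 : ∀ k, k ≤ m → w' (m + 5 + k) = W' k := by
        intro k hk
        simp only [hw']
        rw [if_pos ⟨by omega, by omega⟩, Nat.add_sub_cancel_left]
      have e3 : w' ∘ sb m = W' := by
        funext k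
        show w' (sb m k) = W' k
        unfold sb
        split_ifs with h
        · exact e2 k h
        · rw [e1 _ (by rw [Finset.mem_Icc]; omega), hv k (by omega), hW' k (by omega)]
      have e4 := h3 w' e1 (by rw [e3]; exact hD') (fun k hk => by
        rw [e1 (m + 2) (by rw [Finset.mem_Icc]; omega), e1 (m + 1) (by rw [Finset.mem_Icc]; omega),
          e1 k (by rw [Finset.mem_Icc]; omega), e2 k hk, hb, hτ]
        obtain ⟨z, hz, hz2⟩ := hn k hk
        refine ⟨z, hz, ?_⟩
        rw [← hz2]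
        show b * z + w k = b * z + w (sa m k)
        rw [sa, if_pos hk])
      have e5 := e2 0 (Nat.zero_le _)
      rw [Nat.add_zero] at e5
      rw [e5, e1 0 (by rw [Finset.mem_Icc]; omega)] at e4
      show W' 0 = w (sa m 0)
      rw [sa, if_pos (Nat.zero_le _)]
      exact e4
  · rintro ⟨W, hW, hD', hx, hb, hn⟩
    set w : ℕ → K := fun n => if n ≤ m then W n else par' m b τ v n with hw
    have e0 : ∀ k, k ≤ m → w k = W k := by
      intro k hk
      simp only [hw]
      rw [if_pos hk]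
    have e1 : w (m + 1) = b := by
      simp only [hw]
      rw [if_neg (by omega)]
      simp [par']
    have e2 : w (m + 2) = τ := by
      simp only [hw]
      rw [if_neg (by omega)]
      simp [par']
    have e3 : ∀ k, m < k → w (k + (m + 6)) = v k := by
      intro k hk
      simp only [hw]
      have e1 : k + (m + 6) ≠ m + 1 := by omega
      have e2 : k + (m + 6) ≠ m + 2 := by omega
      rw [if_neg (by omega), par', if_neg e1, if_neg e2, Nat.add_sub_cancel]
    have e4 : w ∘ sa m = W := by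
      funext k
      show w (sa m k) = W k
      unfold sa
      split_ifs with h
      · exact e0 k h
      · rw [e3 k (by omega), hW k (by omega)]
    refine ⟨w, fun i hi => ?_, (mem_TT m q D w).2 ⟨by rw [e4]; exact hD', fun k hk => ?_,
      fun w' hw' hwD hwn => ?_⟩⟩
    · rw [Finset.mem_Icc] at hi
      rcases Nat.eq_zero_or_pos i with h | h
      · subst h
        rw [e0 0 (Nat.zero_le _), hx, update_self]
      · rw [update_of_ne (by omega)]
        simp only [hw]
        rw [if_neg (by omega)]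
    · rw [e1, e2, e0 k hk]
      exact hb k hk
    · have f0 : ∀ i, i ∉ Finset.Icc (m + 5) (2 * m + 5) → w' i = w i := hw'
      have f1 : ∀ k, m < k → (w' ∘ sb m) k = v k := by
        intro k hk
        show w' (sb m k) = v k
        rw [sb, if_neg (by omega), f0 _ (by rw [Finset.mem_Icc]; omega), e3 k hk]
      have f2 := hn (w' ∘ sb m) f1 hwD (fun k hk => by
        obtain ⟨z, hz, hz2⟩ := hwn k hk
        rw [f0 (m + 2) (by rw [Finset.mem_Icc]; omega), e2] at hz
        rw [f0 (m + 1) (by rw [Finset.mem_Icc]; omega), e1,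
          f0 k (by rw [Finset.mem_Icc]; omega), e0 k hk] at hz2
        refine ⟨z, hz, ?_⟩
        rw [hz2]
        show _ = w' (sb m k)
        rw [sb, if_pos hk])
      have f3 : (w' ∘ sb m) 0 = w' (m + 5) := by
        show w' (sb m 0) = _
        rw [sb, if_pos (Nat.zero_le _), Nat.add_zero]
      rw [← f3, f2, f0 0 (by rw [Finset.mem_Icc]; omega), e0 0 (Nat.zero_le _)]

end

end Pool.Agent.Q318.FT
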