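import Pool.Agent.Q318.FT.Core

/-! # Locally constant values of definable functions (helper318) -/

set_option autoImplicit false

namespace Pool.Agent.Q318.FT

open Function
open Pool.Agent.Y924.EL
open Pool.Agent.Y924.UF
open Pool.Agent.Y410.UF
open WithZero LaurentSeries

/-- the assignment `c_0, ..., c_(d-1), v_d, v_(d+1), ...` -/
def pt {K : Type} (d : ℕ) (c : Fin d → K) (v : ℕ → K) (k : ℕ) : K :=
  if h : k < d then c ⟨k, h⟩ else v k

theorem pt_lt {K : Type} (d : ℕ) (c : Fin d → K) (v : ℕ → K) (k : Fin d) : pt d c v k = c k := by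
  unfold pt
  rw [dif_pos k.2]

theorem pt_ge {K : Type} (d : ℕ) (c : Fin d → K) (v : ℕ → K) {k : ℕ} (h : d ≤ k) :
    pt d c v k = v k := by
  unfold pt
  rw [dif_neg (by omega)]

theorem joint {L : Type} (n : ℕ) (S : Set (Fin n → L)) (N : ℕ)
    (h : ∀ i : Fin n, ∀ F : Finset L, (∀ x ∈ F, ∃ b ∈ S, b i = x) → F.card ≤ N) :
    S.Finite ∧ S.ncard ≤ N ^ n := by
  classical
  have h1 : ∀ i : Fin n, {x | ∃ b ∈ S, b i = x}.Finite := by
    intro i
    by_contra hinf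
    obtain ⟨F, hF, hN⟩ := Set.Infinite.exists_subset_card_eq hinf (N + 1)
    have := h i F fun x hx => hF hx
    omega
  have h2 : S ⊆ (Fintype.piFinset fun i => (h1 i).toFinset : Finset (Fin n → L)) := by
    intro b hb
    rw [Finset.mem_coe, Fintype.mem_piFinset]
    intro i
    rw [Set.Finite.mem_toFinset]
    exact ⟨b, hb, rfl⟩
  refine ⟨(Finset.finite_toSet _).subset h2, ?_⟩
  calc S.ncard ≤ ((Fintype.piFinset fun i => (h1 i).toFinset : Finset (Fin n → L)) :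
        Set (Fin n → L)).ncard := Set.ncard_le_ncard h2 (Finset.finite_toSet _)
    _ = ∏ i : Fin n, ((h1 i).toFinset).card := by
        rw [Set.ncard_coe_finset, Fintype.card_piFinset]
    _ ≤ ∏ _i : Fin n, N := Finset.prod_le_prod' fun i _ => h i _ fun x hx => by
        rw [Set.Finite.mem_toFinset] at hx
        exact hx
    _ = N ^ n := by simp

theorem coords (hVAL : S_VAL) (p : ℕ) [Fact p.Prime] (P : Set (LaurentSeries (ZMod p)))
    (huni : ∀ φ : Fm, ∃ N : ℕ, ∀ v, (DefP P φ v).Finite → (DefP P φ v).ncard ≤ N)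
    (φ : Fm) (d : ℕ) : ∃ N : ℕ, ∀ (v : ℕ → LaurentSeries (ZMod p))
      (C : Set (Fin d → LaurentSeries (ZMod p))), (∀ c, Sat P φ (pt d c v) ↔ c ∈ C) →
      ∀ (i : Fin d) (F : Finset (LaurentSeries (ZMod p))),
      (∀ x ∈ F, ∃ c ∈ C, c i = x ∧ ∃ b : LaurentSeries (ZMod p), b ≠ 0 ∧ ∀ c' ∈ C,
        (∀ k, w (c' k - c k) ≤ w b) → c' i = c i) → F.card ≤ N := by
  obtain ⟨N, hN⟩ := core_all hVAL p P huni φ (d - 1)
  refine ⟨N, fun v C hC i F hF => ?_⟩
  have hd : 0 < d := i.pos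
  refine hN v i (by have := i.2; omega) F fun x hx => ?_
  obtain ⟨c, hc, hci, b, hb0, hb⟩ := hF x hx
  refine ⟨pt d c v, fun k hk => pt_ge d c v (by omega), (hC c).2 hc, ?_, b, hb0,
    fun W' hW' hs hn => ?_⟩
  · rw [pt_lt, hci]
  · have h1 : pt d (fun k : Fin d => W' k) v = W' := by
      funext k
      by_cases hk : k < d
      · exact pt_lt d _ v ⟨k, hk⟩
      · rw [pt_ge d _ v (by omega), hW' k (by omega)]
    rw [pt_lt]
    refine hb (fun k : Fin d => W' k) ((hC _).1 (by rw [h1]; exact hs)) fun k => ?_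
    have h2 := hn k (by have := k.2; omega)
    rwa [pt_lt] at h2

/-- definable functions -/
theorem functions (hVAL : S_VAL) (p : ℕ) [Fact p.Prime] (P : Set (LaurentSeries (ZMod p)))
    (huni : ∀ φ : Fm, ∃ N : ℕ, ∀ v, (DefP P φ v).Finite → (DefP P φ v).ncard ≤ N)
    (φ : Fm) (n m : ℕ) : ∃ N : ℕ, ∀ (v : ℕ → LaurentSeries (ZMod p))
      (D : Set (Fin m → LaurentSeries (ZMod p)))
      (f : (Fin m → LaurentSeries (ZMod p)) → Fin n → LaurentSeries (ZMod p)),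
      (∀ a b, Sat P φ (pt (n + m) (Fin.append b a) v) ↔ a ∈ D ∧ f a = b) →
      {b | ∃ a ∈ D, f a = b ∧ ∃ c : LaurentSeries (ZMod p), c ≠ 0 ∧ ∀ a' ∈ D,
        (∀ k, w (a' k - a k) ≤ w c) → f a' = f a}.Finite ∧
      {b | ∃ a ∈ D, f a = b ∧ ∃ c : LaurentSeries (ZMod p), c ≠ 0 ∧ ∀ a' ∈ D,
        (∀ k, w (a' k - a k) ≤ w c) → f a' = f a}.ncard ≤ N := by
  obtain ⟨N, hN⟩ := coords hVAL p P huni φ (n + m)
  refine ⟨N ^ n, fun v D f hf => joint n _ N fun i F hF => ?_⟩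
  have hsplit : ∀ c : Fin (n + m) → LaurentSeries (ZMod p),
      Fin.append (fun j => c (Fin.castAdd m j)) (fun j => c (Fin.natAdd n j)) = c :=
    fun c => Fin.append_castAdd_natAdd
  refine hN v {c | (fun j => c (Fin.natAdd n j)) ∈ D ∧
    f (fun j => c (Fin.natAdd n j)) = fun j => c (Fin.castAdd m j)} (fun c => ?_)
    (Fin.castAdd m i) F fun x hx => ?_
  · have h1 := hf (fun j => c (Fin.natAdd n j)) (fun j => c (Fin.castAdd m j))
    rw [hsplit c] at h1
    exact h1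
  · obtain ⟨b, ⟨a, haD, hab, c, hc0, hc⟩, hbi⟩ := hF x hx
    refine ⟨Fin.append b a, ?_, ?_, c, hc0, fun c' hc' hn => ?_⟩
    · show (fun j => Fin.append b a (Fin.natAdd n j)) ∈ D ∧
        f (fun j => Fin.append b a (Fin.natAdd n j)) = fun j => Fin.append b a (Fin.castAdd m j)
      simp only [Fin.append_left, Fin.append_right]
      exact ⟨haD, hab⟩
    · rw [Fin.append_left, hbi]
    · have h1 := hc (fun j => c' (Fin.natAdd n j)) hc'.1 fun k => by
        have h2 := hn (Fin.natAdd n k)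
        rwa [Fin.append_right] at h2
      have h3 := hc'.2
      rw [h1, hab] at h3
      rw [Fin.append_left]
      have h4 : b i = c' (Fin.castAdd m i) := by
        rw [h3]
      exact h4.symm

/-- isolated points -/
theorem isolated (hVAL : S_VAL) (p : ℕ) [Fact p.Prime] (P : Set (LaurentSeries (ZMod p)))
    (huni : ∀ φ : Fm, ∃ N : ℕ, ∀ v, (DefP P φ v).Finite → (DefP P φ v).ncard ≤ N)
    (φ : Fm) (m : ℕ) : ∃ N : ℕ, ∀ (v : ℕ → LaurentSeries (ZMod p))
      (D : Set (Fin m → LaurentSeries (ZMod p))), (∀ a, Sat P φ (pt m a v) ↔ a ∈ D) →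
      {a | a ∈ D ∧ ∃ c : LaurentSeries (ZMod p), c ≠ 0 ∧ ∀ a' ∈ D,
        (∀ k, w (a' k - a k) ≤ w c) → a' = a}.Finite ∧
      {a | a ∈ D ∧ ∃ c : LaurentSeries (ZMod p), c ≠ 0 ∧ ∀ a' ∈ D,
        (∀ k, w (a' k - a k) ≤ w c) → a' = a}.ncard ≤ N := by
  obtain ⟨N, hN⟩ := coords hVAL p P huni φ m
  refine ⟨N ^ m, fun v D hD => joint m _ N fun i F hF => ?_⟩
  refine hN v D hD i F fun x hx => ?_
  obtain ⟨a, ⟨haD, c, hc0, hc⟩, hai⟩ := hF x hx
  exact ⟨a, haD, hai, c, hc0, fun a' ha' hn => by rw [hc a' ha' hn]⟩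

end Pool.Agent.Q318.FT
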